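import Pool.Agent.LPW.StmtsE

/-!
# Squad LPW (MP_5f2860_nt), row NO2: uniform domination of the coefficients, two variables
-/

set_option autoImplicit false

namespace Pool.Agent.LPW.H65

open Pool.Agent.LPW

theorem no2 : No2Stmt := by
  intro p _ R _ _ g
  let f : ℕ →o Submodule R R :=
    { toFun := fun K => Ideal.span ((fun q : ℕ × ℕ => hc g q.1 q.2) '' {q | q.1 + q.2 ≤ K})
      monotone' := by
        intro a b hab
        apply Ideal.span_mono
        apply Set.image_mono
        intro l hl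
        exact le_trans hl hab }
  obtain ⟨K, hK⟩ := (monotone_stabilizes_iff_noetherian (R := R) (M := R)).2 inferInstance f
  refine ⟨K, fun φ i j => ?_⟩
  have hmap : ∀ a b, hc (PowerSeries.map (PowerSeries.map φ) g) a b = φ (hc g a b) := by
    intro a b
    rw [hc, hc, PowerSeries.coeff_map, PowerSeries.coeff_map]
  obtain ⟨q, hq, hmax⟩ := Finset.exists_max_image
    (((Finset.range (K + 1)) ×ˢ (Finset.range (K + 1))).filter (fun q => q.1 + q.2 ≤ K))
    (fun q => ‖φ (hc g q.1 q.2)‖) ⟨(0, 0), by simp⟩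
  have hq2 : q.1 + q.2 ≤ K := (Finset.mem_filter.1 hq).2
  have key : ∀ x ∈ Ideal.span ((fun q : ℕ × ℕ => hc g q.1 q.2) '' {q | q.1 + q.2 ≤ K}),
      ‖φ x‖ ≤ ‖φ (hc g q.1 q.2)‖ := by
    intro x hx
    refine Submodule.span_induction (p := fun x _ => ‖φ x‖ ≤ ‖φ (hc g q.1 q.2)‖)
      ?_ ?_ ?_ ?_ hx
    · rintro y ⟨r, hr, rfl⟩
      apply hmax r
      have hr' : r.1 + r.2 ≤ K := hr
      rw [Finset.mem_filter, Finset.mem_product, Finset.mem_range, Finset.mem_range]
      exact ⟨⟨by omega, by omega⟩, hr'⟩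
    · rw [map_zero, norm_zero]
      exact norm_nonneg _
    · intro a b _ _ ha hb
      rw [map_add]
      exact (PadicInt.nonarchimedean _ _).trans (max_le ha hb)
    · intro c a _ ha
      rw [smul_eq_mul, map_mul, norm_mul]
      calc ‖φ c‖ * ‖φ a‖ ≤ 1 * ‖φ a‖ :=
            mul_le_mul_of_nonneg_right (PadicInt.norm_le_one _) (norm_nonneg _)
        _ = ‖φ a‖ := one_mul _
        _ ≤ _ := ha
  refine ⟨q.1, q.2, hq2, ?_⟩
  rw [hmap, hmap]
  apply key
  have hk : hc g i j ∈ f (max K (i + j)) :=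
    Ideal.subset_span ⟨(i, j), le_max_right K (i + j), rfl⟩
  rw [← hK (max K (i + j)) (le_max_left K (i + j))] at hk
  exact hk

end Pool.Agent.LPW.H65
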