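import Pool.Agent.LPW.StmtsC

/-!
# Squad LPW (MP_5f2860_nt), row PRM: primes in short intervals on the logarithmic scale
-/

set_option autoImplicit false

namespace Pool.Agent.LPW.H65

open Pool.Agent.LPW

theorem prm : PrmStmt := by
  classical
  intro h B hB
  induction h with
  | zero => exact ⟨∅, Finset.card_empty, fun l hl => absurd hl (Finset.notMem_empty l)⟩
  | succ h ih =>
    obtain ⟨s, hs1, hs2⟩ := ih
    have h0 : 1 ≤ 2 ^ h := Nat.one_le_two_pow
    have h1 : 2 ^ h * B ≠ 0 := by positivity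
    obtain ⟨q, hq1, hq2, hq3⟩ := Nat.exists_prime_lt_and_le_two_mul (2 ^ h * B) h1
    have hB2 : B ≤ 2 ^ h * B := Nat.le_mul_of_pos_left B (by omega)
    refine ⟨insert q s, ?_, ?_⟩
    · rw [Finset.card_insert_of_notMem (fun hq => by have := (hs2 q hq).2.2; omega), hs1]
    · intro l hl
      rcases Finset.mem_insert.1 hl with rfl | hl
      · refine ⟨hq1, by omega, ?_⟩
        rw [pow_succ]
        calc l ≤ 2 * (2 ^ h * B) := hq3
          _ = 2 ^ h * 2 * B := by ring
      · obtain ⟨h2, h3, h4⟩ := hs2 l hl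
        refine ⟨h2, h3, h4.trans ?_⟩
        rw [pow_succ]
        calc 2 ^ h * B ≤ 2 * (2 ^ h * B) := by omega
          _ = 2 ^ h * 2 * B := by ring

end Pool.Agent.LPW.H65
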